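import Pool.Agent.Run7.h659.CD4

/-!
# The periods of the cyclic covers of the line, for 100% of the polynomials and all degrees of the covers at once

Let `F_1, …, F_N` be polynomials of degrees `n_j + 1`. We consider the curves `y ^ m = F_j (x)` for all `j` and all `m`
in a growing range. The group of the roots of unity acts on the cohomology of `y ^ m = F (x)`; the part of the character
`a / m` is the space of the forms `x ^ i dx / y ^ a`, `i < n` (`deg F = n + 1`), it depends only on the rational number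
`ρ = a / m`, and the part for `1 - ρ` is dual to it. The part of `ρ = 1 / 2` belongs to the hyperelliptic curve
`y ^ 2 = F (x)`. We take all `ρ` in `(0, 1 / 2)` with denominators different from `4`, `6`, `10` and with `(n + 1) ρ` not
an integer; in particular all the characters of odd order, of order prime to `n + 1`.

Let `w_0 = 1, w_1, …, w_q` be complex numbers and `Λ = ℤ w_0 + … + ℤ w_q` (for example the ring of integers of a number
field). The coefficients of the `F_j` are in `Λ`, `∑_i b_(j,m,i) w_i`, and the tuples of polynomials are ordered by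
`|b_(j,m,i)| ≤ T`. The theorem: there is `ω(T) → ∞` such that for 100% of the tuples all the relations of degree at most
`ω(T)` and height at most `T ^ ω(T)`, over number fields of degree at most `ω(T)` and relative to `ω(T)` arbitrary complex
numbers `ξ`, between all the period matrices `P_(j,ρ)`, `j ≤ N`, of all `ρ` of denominator at most `ω(T)`, hold for all
`g_(j,ρ) P_(j,ρ)`, `det g_(j,ρ) = 1`: they are relations between the determinants only. The determinants are products of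
values of the gamma function and of powers of the discriminant and of the leading coefficient.
-/

set_option autoImplicit false

open Polynomial NumberField Filter

namespace Pool.Agent.Results.MP_caab05_ag.AlmostAllCyclicCovers

variable {N : ℕ}

/-- the indices of the coefficients -/
abbrev Coef (n : Fin N → ℕ) (q : ℕ) : Type := (Σ j, Fin (n j + 2)) × Fin (q + 1)

/-- the polynomials `F_j = ∑ (∑_i b_(j,m,i) w_i) x ^ m`, `m ≤ n_j + 1` -/
noncomputable def pol (n : Fin N → ℕ) {q : ℕ} (w : Fin (q + 1) → ℂ) (b : Coef n q → ℤ) (j : Fin N) : ℂ[X] :=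
  ∑ m : Fin (n j + 2), C (∑ i, w i * (b (⟨j, m⟩, i) : ℂ)) * X ^ (m : ℕ)

/-- the tuples with `|b_(j,m,i)| ≤ T` -/
noncomputable def Box (n : Fin N → ℕ) (q T : ℕ) : Finset (Coef n q → ℤ) :=
  Fintype.piFinset fun _ => Finset.Icc (-(T : ℤ)) T

/-- `F` has degree `m + 1` and its roots are `e`, in increasing order with respect to `re + im` (so they are
distinct) -/
def Branch {m : ℕ} (F : ℂ[X]) (e : Fin (m + 1) → ℂ) : Prop :=
  F.coeff (m + 1) ≠ 0 ∧ F = C (F.coeff (m + 1)) * ∏ r, (X - C (e r)) ∧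
    ∀ r s, r < s → (e r).re + (e r).im < (e s).re + (e s).im

/-- a branch of `(c ∏ (x - e i)) ^ (- ρ)`, for `x` on the segment from `e l` to `e (l + 1)`: all the arguments of
the principal powers have real part `≥ 0`, up to the first two (constant) factors -/
noncomputable def power {m : ℕ} (ρ : ℚ) (c : ℂ) (e : Fin (m + 1) → ℂ) (l : Fin m) (x : ℂ) : ℂ :=
  ((1 + Complex.I) ^ (-(ρ : ℂ))) ^ (m + 2) * (c / (1 + Complex.I)) ^ (-(ρ : ℂ)) *
    Complex.exp (Real.pi * Complex.I * ((ρ : ℂ) * ((m : ℂ) - ((l : ℕ) : ℂ)))) *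
    ∏ i, ((if i ≤ l.castSucc then x - e i else e i - x) / (1 + Complex.I)) ^ (-(ρ : ℂ))

/-- the point of the segment from `p` to `q` -/
noncomputable def seg (p q : ℂ) (t : ℝ) : ℂ := (1 - t) * p + t * q

/-- the integral of `x ^ i dx / y ^ a` over the segment from `e l` to `e (l + 1)`, `ρ = a / N`,
`y ^ N = c ∏ (x - e i)` -/
noncomputable def period {m : ℕ} (ρ : ℚ) (c : ℂ) (e : Fin (m + 1) → ℂ) (l : Fin m) (i : ℕ) : ℂ :=
  ∫ t in (0 : ℝ)..1, (seg (e l.castSucc) (e l.succ) t) ^ i * power ρ c e l (seg (e l.castSucc) (e l.succ) t) *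
    (e l.succ - e l.castSucc)

/-- the exponents: the rational numbers in `(0, 1 / 2)` of denominator at most `k`, different from `4`, `6` and `10`,
whose product with `n + 1` is not an integer -/
def Expo (n k : ℕ) : Set ℚ :=
  {ρ | 0 < ρ ∧ ρ < 1 / 2 ∧ ρ.den ≤ k ∧ ρ.den ≠ 4 ∧ ρ.den ≠ 6 ∧ ρ.den ≠ 10 ∧ ∀ b : ℤ, ((n : ℚ) + 1) * ρ ≠ b}

/-- systems of matrices, for all the polynomials and all the exponents -/
abbrev Sys (n : Fin N → ℕ) (k : ℕ) : Type := ∀ j, Expo (n j) k → Matrix (Fin (n j)) (Fin (n j)) ℂ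

/-- the period matrices of the curves `y ^ m = F_j (x)`; the rows correspond to the segments, the columns to the
differentials -/
noncomputable def periods (n : Fin N → ℕ) (k : ℕ) (F : Fin N → ℂ[X]) (e : ∀ j, Fin (n j + 1) → ℂ) : Sys n k :=
  fun j ρ => Matrix.of fun l i => period (ρ : ℚ) ((F j).coeff (n j + 1)) (e j) l (i : ℕ)

/-- the indices of the entries of the matrices -/
abbrev Ind (n : Fin N → ℕ) (k : ℕ) : Type := Σ j, Expo (n j) k × Fin (n j) × Fin (n j)

/-- the value at a system of matrices of a polynomial in the entries -/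
noncomputable def value {n : Fin N → ℕ} {k : ℕ} (P : MvPolynomial (Ind n k) ℂ) (Y : Sys n k) : ℂ :=
  MvPolynomial.eval (fun s => Y s.1 s.2.1 s.2.2.1 s.2.2.2) P

/-- every relation `P(Y) = 0`, `P` of partial degrees at most `k` with coefficients `∑ ξ_i c_i`, `c_i` integers of `K`
all of whose conjugates are at most `H` in absolute value, holds for all `g Y`, `det g_(j,ρ) = 1` -/
def BoundedGPC {n : Fin N → ℕ} {k : ℕ} (K : Type) [Field K] [NumberField K] (io : K →+* ℂ) (ξ : Fin k → ℂ) (H : ℝ)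
    (Y : Sys n k) : Prop :=
  ∀ P : MvPolynomial (Ind n k) ℂ, (∀ s, P.degreeOf s ≤ k) →
    (∀ m, ∃ c : Fin k → 𝓞 K, (∀ i (φ : K →+* ℂ), ‖φ (c i : K)‖ ≤ H) ∧ P.coeff m = ∑ i, ξ i * io (c i : K)) →
    value P Y = 0 → ∀ g : Sys n k, (∀ j ρ, (g j ρ).det = 1) → value P (fun j ρ => g j ρ * Y j ρ) = 0

/-- The function `power ρ c e l` is a branch of `(c ∏ (x - e i)) ^ (- ρ)`. Let `N ≥ 1`, let `n_1, …, n_N` be natural
numbers and let `w_0 = 1, w_1, …, w_q` be complex numbers. There is `ω : ℕ → ℕ`, `ω(T) → ∞`, such that for all `ε > 0`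
and `T ≥ T₀(ε)`, all number fields `K` of degree at most `ω(T)`, all embeddings and all complex numbers `ξ_i`,
`i < ω(T)`, all but a proportion `ε` of the tuples `b` with `|b_(j,m,i)| ≤ T` satisfy: the polynomials `F_j` have degrees
`n_j + 1` and distinct roots, with distinct `re + im`; every relation of partial degrees `≤ ω(T)` between all the period
matrices `P_(j,ρ)` of the curves `y ^ m = F_j (x)`, `j ≤ N`, `ρ ∈ Expo n_j (ω(T))`, with coefficients `∑ ξ_i c_i`,
`c_i ∈ 𝓞_K` with conjugates `≤ T ^ ω(T)`, holds for all systems `g_(j,ρ) P_(j,ρ)` with `det g_(j,ρ) = 1`. -/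
theorem result (hN : 1 ≤ N) (n : Fin N → ℕ) (q : ℕ) (w : Fin (q + 1) → ℂ) (hw : w 0 = 1) :
    (∀ (m : ℕ) (ρ : ℚ) (c : ℂ) (e : Fin (m + 1) → ℂ) (l : Fin m) (x : ℂ), c ≠ 0 → (∀ i, x ≠ e i) →
      power ρ c e l x ^ ρ.den = (c * ∏ i, (x - e i)) ^ (-ρ.num)) ∧
    ∃ ω : ℕ → ℕ, Tendsto ω atTop atTop ∧ ∀ ε : ℝ, 0 < ε → ∃ T₀ : ℕ, ∀ T : ℕ, T₀ ≤ T →
      ∀ (K : Type) [Field K] [NumberField K], Module.finrank ℚ K ≤ ω T → ∀ (io : K →+* ℂ) (ξ : Fin (ω T) → ℂ),
      ∃ E ⊆ Box n q T, (E.card : ℝ) ≤ ε * (Box n q T).card ∧ ∀ b ∈ Box n q T, b ∉ E →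
        ∃ e : ∀ j, Fin (n j + 1) → ℂ, (∀ j, Branch (pol n w b j) (e j)) ∧
          BoundedGPC K io ξ ((T : ℝ) ^ ω T) (periods n (ω T) (pol n w b) e) := by
  have : Nonempty (Fin N) := ⟨⟨0, hN⟩⟩
  refine ⟨fun m ρ c e l x hc hx => Pool.Agent.Run7.h659.CD.br_pow ρ hc e l x hx, ?_⟩
  obtain ⟨ω, hω, H⟩ := Pool.Agent.Run7.h659.CD.main n hw
  refine ⟨ω, hω, fun ε hε => ?_⟩
  obtain ⟨T₀, hT₀⟩ := H ε hε
  refine ⟨T₀, fun T hT K _ _ hK io ξ => ?_⟩
  obtain ⟨E, hE1, hE2, hE3⟩ := hT₀ T hT K hK io ξ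
  have hbox : Pool.Agent.N121.OH.BX (Pool.Agent.Run7.h659.CD.on (Coef n q)) T = Box n q T := by
    unfold Pool.Agent.N121.OH.BX Box Pool.Agent.Run7.h659.CD.on
    simp
  rw [hbox] at hE1 hE2 hE3
  refine ⟨E, hE1, hE2, fun b hb hbE => ?_⟩
  obtain ⟨e, he, h1⟩ := hE3 b hb hbE
  set a : (Σ j, Fin (n j + 2)) → ℂ := Pool.Agent.N121.BF.Lm w fun p => ((b p : ℤ) : ℂ) with ha
  have hpol : ∀ j, pol n w b j = Pool.Agent.N121.AH.fp (Pool.Agent.Y890.MV.pj a j) := fun j => rfl
  have hlead : ∀ j, (pol n w b j).coeff (n j + 1) = a ⟨j, Fin.last (n j + 1)⟩ := fun j => by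
    rw [hpol]
    exact Pool.Agent.N121.AH.fp_coeff_fin _ (Fin.last (n j + 1))
  refine ⟨e, fun j => ⟨?_, ?_, (he j).2.2⟩, ?_⟩
  · rw [hlead]
    exact (he j).1
  · rw [hlead, hpol]
    exact (he j).2.1
  · have hper : periods n (ω T) (pol n w b) e = Pool.Agent.Run7.h659.CD.PX n (ω T) a e := by
      funext j ρ
      unfold periods Pool.Agent.Run7.h659.CD.PX
      rw [hlead]
      rfl
    rw [hper]
    exact h1

end Pool.Agent.Results.MP_caab05_ag.AlmostAllCyclicCovers
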