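import Pool.Agent.Run7.h309.JU.AllU
import Pool.Agent.Run7.h309.JP.Ram

/-!
# The period conjecture in growing degree and height for products of hypergeometric motives of all types

Let `α_1, …, α_n` be rational numbers which are not integers, `n ≥ 2`, `θ = z d/dz` and `Q(x) = ∏_j (x + α_j)`. The
hypergeometric operator `θ^n - z Q(θ)` has maximally unipotent monodromy at `z = 0`, the exponents at infinity are the `α_j`,
and the monodromy at `z = 1` is a pseudoreflection with the determinant `exp(2πi s)`, `s = ∑_j α_j`. The Frobenius method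
gives the basis `f_0, …, f_{n-1}` of solutions, `Y = (θ^i f_j)`. The periods of the fibres of the family of motives near
`z = 0` are linear combinations with constant coefficients of the numbers `(θ^i f_j)(z)`.

Up to rational gauge transformations the equation depends only on the `α_j` modulo `ℤ`, so we may normalise them such that
`s = 0` if `s` is an integer, `Q(-x) = Q(x)` if the equation is self-dual and `n` is even, and `Q(-1-x) = -Q(x)` if it is
self-dual and `n` is odd. So all hypergeometric equations with maximally unipotent monodromy are considered: the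
differential Galois group contains `Sp_n` (`Q(-x) = Q(x)`), `SO_n` (`Q(-1-x) = -Q(x)`) or `SL_n` (not self-dual), and the
monodromy at `1` is unipotent (`s = 0`) or a complex reflection.

We consider `k` points `z_i` and for each of them the product of the motives of a finite list of such equations `e_ij`, such
that the exponents at infinity of different equations of a list are not the same modulo `ℤ`, nor those of the dual equation.
(We exclude lists with an equation of order `2` with a reflection of order two at `1` and a self-dual equation of order `3`: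
the symmetric square of the first may be the second by Clausen's formula.) The torsor of the list at `z` consists of the
tuples of matrices which satisfy the bilinear relations of the self-dual equations, and whose determinants are the powers
`exp(-s_j L)` with one logarithm `L` of `1 - z` for all equations of the list. In order to have these determinants in the
field of definition we write `z_i = 1 - v_i ^ M_i` with the common denominator `M_i` of the `s_ij`; so `v_i` is a point of the
cyclic covering over which the monodromy group becomes connected (`M_i = 1` and `v_i = 1 - z_i` if all `s_ij` are zero).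

The theorem: the functional relations (over `ℂ`) are those of the product of the torsors, and for all points `v` over all
number fields `K` of degree at most `w`, of height at most `T`, outside few hypersurfaces, all relations of degree at most `w`
between the periods of all these motives, with coefficients in `K` of height at most `T ^ w`, even relative to `w` arbitrary
complex constants, are those of the torsors, where `w` tends to infinity with `T`.
-/

set_option autoImplicit false

open PowerSeries Pool.Agent.Y119.HZ Filter NumberField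

namespace Pool.Agent.Results.MP_caab05_ag.HypergeometricAllTypes

/-- A hypergeometric equation `θ^n f = z ∏_j (θ + α_j) f`. -/
structure Eqn where
  n : ℕ
  α : Fin n → ℚ

/-- the dual equation (the exponents at infinity are `-α_j`) -/
def Eqn.dual (e : Eqn) : Eqn := ⟨e.n, fun j => -e.α j⟩

/-- the multiset of the fractional parts of the `α_j` -/
def Eqn.frac (e : Eqn) : Multiset ℚ := Multiset.map (fun j => Int.fract (e.α j)) Finset.univ.val

/-- the polynomial `Q = ∏_j (x + α_j)` -/
noncomputable def Eqn.poly (e : Eqn) : Polynomial ℚ := ∏ j, (Polynomial.X + Polynomial.C (e.α j))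

/-- `Q(-x) = Q(x)` -/
def Eqn.Symplectic (e : Eqn) : Prop := e.poly.comp (-Polynomial.X) = e.poly

/-- `Q(-1-x) = -Q(x)` -/
def Eqn.Orthogonal (e : Eqn) : Prop := e.poly.comp (-(Polynomial.X + 1)) = -e.poly

/-- the sum of the exponents at infinity -/
def Eqn.sum (e : Eqn) : ℚ := ∑ j, e.α j

/-- The order is at least two, the exponents at infinity are not integers, their sum is `0` or not an integer, and either the
fractional parts of the `α_j` and of the `-α_j` are different multisets or `Q(-x) = Q(x)` or `Q(-1-x) = -Q(x)`. -/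
def Eqn.Admissible (e : Eqn) : Prop :=
  2 ≤ e.n ∧ (∀ j, ∀ a : ℤ, e.α j ≠ a) ∧ (e.sum = 0 ∨ ∀ a : ℤ, e.sum ≠ a) ∧
  (e.frac ≠ e.dual.frac ∨ e.Symplectic ∨ e.Orthogonal)

/-- The equations of a list are admissible, the exponents at infinity of different equations of the list, and of one of
them and of the dual of another one, are different modulo `ℤ`, and the list does not contain both an equation of order two
such that `s ≠ 0` and `2 s` is an integer and an equation of order three with `Q(-1-x) = -Q(x)`. -/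
def Good {r : ℕ} (e : Fin r → Eqn) : Prop :=
  (∀ j, (e j).Admissible) ∧ (∀ i j, i ≠ j → (e i).frac ≠ (e j).frac ∧ (e i).frac ≠ (e j).dual.frac) ∧
  ∀ i j, (e i).n = 2 → (∃ a : ℤ, 2 * (e i).sum = a) → (e i).sum ≠ 0 → (e j).n = 3 → ¬ (e j).Orthogonal

/-- the least common denominator of the sums `s_j` -/
def ram {r : ℕ} (e : Fin r → Eqn) : ℕ := Finset.univ.lcm fun j => (e j).sum.den

/-- the power series `k + ε` in the variable `ε` -/
noncomputable def shift (k : ℕ) : PowerSeries ℚ := C (k : ℚ) + X

/-- `a_k(ε) = ∏_{l < k} Q(l + ε) / (l + 1 + ε)^n`. The series `∑_k a_k(ε) z^(k + ε)` solves the equation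
`(θ^n - z Q(θ)) f = ε^n z^ε`, hence its coefficients `f_j` at `ε^j` with `j < n` are solutions of the homogeneous
equation. -/
noncomputable def Eqn.frob (e : Eqn) (k : ℕ) : PowerSeries ℚ :=
  ∏ l ∈ Finset.range k, (Polynomial.aeval (shift l) e.poly * ((shift (l + 1))⁻¹) ^ e.n)

/-- The matrix with the entries `(θ^i f_j)(z)`, where `f_j(z)` is the coefficient of `ε^j` in the series
`∑_k a_k(ε) z^(k + ε)`, `z^ε = ∑_l (log z)^l ε^l / l!` (principal branch of the logarithm). -/
noncomputable def Eqn.Y (e : Eqn) (z : ℂ) : Matrix (Fin e.n) (Fin e.n) ℂ :=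
  Matrix.of fun i j => ∑ l ∈ Finset.range ((j : ℕ) + 1), Complex.log z ^ l / (l.factorial : ℂ) *
    ∑' k : ℕ, ((coeff ((j : ℕ) - l) (shift k ^ (i : ℕ) * e.frob k) : ℚ) : ℂ) * z ^ k

/-- The matrix of the alternating form: the entry `(i, j)` is `(-1)^i q_{i+j+1-n}` for `i + j + 1 ≥ n` and `0`
otherwise, where `q_l` are the coefficients of `Q`. -/
noncomputable def Eqn.J (e : Eqn) : Matrix (Fin e.n) (Fin e.n) ℂ :=
  Matrix.of fun i j => if e.n ≤ (i : ℕ) + j + 1 then (((-1) ^ (i : ℕ) * e.poly.coeff (i + j + 1 - e.n) : ℚ) : ℂ) else 0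

/-- the polynomial `(Q(x) + Q(y)) / (x + y + 1)`, a polynomial in `y` with coefficients in `ℚ[x]` -/
noncomputable def lagrange (Q : Polynomial ℚ) : Polynomial (Polynomial ℚ) :=
  (Polynomial.C Q + Q.map Polynomial.C) /ₘ (Polynomial.X + Polynomial.C (Polynomial.X + 1))

/-- The matrix of the symmetric form on the fibre at `z`: the entry `(i, j)` is the coefficient of `x^i y^j` in
`(x^n + y^n) / (x + y) - z (Q(x) + Q(y)) / (x + y + 1)`. -/
noncomputable def Eqn.B (e : Eqn) (z : ℂ) : Matrix (Fin e.n) (Fin e.n) ℂ :=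
  Matrix.of fun i j => (if (i : ℕ) + j + 1 = e.n then (-1) ^ (i : ℕ) else 0) -
    z * ((((lagrange e.poly).coeff j).coeff i : ℚ) : ℂ)

/-- The torsor of the equation at `z` for a logarithm `L` of `1 - z`: the matrices `X` with `det X = exp(-s L)`,
`s = ∑_j α_j`, and `Xᵀ J X = J` if `Q(-x) = Q(x)`, and `Xᵀ B(z) X = B(0)` if `Q(-1-x) = -Q(x)`. -/
def Eqn.T (e : Eqn) (L z : ℂ) : Set (Matrix (Fin e.n) (Fin e.n) ℂ) :=
  {X | X.det = Complex.exp (-((e.sum : ℚ) : ℂ) * L) ∧ (e.Symplectic → X.transpose * e.J * X = e.J) ∧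
    (e.Orthogonal → X.transpose * e.B z * X = e.B 0)}

/-- the variables: for each `i` one for the logarithm and one for each entry of the matrices -/
abbrev Var {k : ℕ} {r : Fin k → ℕ} (e : ∀ i, Fin (r i) → Eqn) : Type :=
  Σ i : Fin k, Option (Σ j : Fin (r i), Fin (e i j).n × Fin (e i j).n)

/-- the point with the coordinates `l_i` and the entries of the matrices `X_ij` -/
def point {k : ℕ} {r : Fin k → ℕ} {e : ∀ i, Fin (r i) → Eqn} (l : Fin k → ℂ)
    (X : ∀ i j, Matrix (Fin (e i j).n) (Fin (e i j).n) ℂ) : Var e → ℂ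
  | ⟨i, none⟩ => l i
  | ⟨i, some ⟨j, p⟩⟩ => X i j p.1 p.2

/-- the `v` with `|arg v| < π / M` such that `z = 1 - v ^ M` is in the unit disc and not a real number `≤ 0` -/
def Domain (M : ℕ) : Set ℂ := {v | (‖1 - v ^ M‖ < 1 ∧ 1 - v ^ M ∈ Complex.slitPlane) ∧ |v.arg| < Real.pi / M}

/-- the `v` with `|arg v| < π / M` such that `z = 1 - v ^ M` is in the unit disc, at distance at least `1 / w` from the unit
circle and from the real numbers `≤ 0` -/
def Inner (M w : ℕ) : Set ℂ :=
  {v | (‖1 - v ^ M‖ + 1 / w ≤ 1 ∧ ∀ t : ℝ, t ≤ 0 → (1 : ℝ) / w ≤ ‖1 - v ^ M - t‖) ∧ |v.arg| < Real.pi / M}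

/-- the torsor of a list of equations at `v`: the tuples of matrices `X_j` in the torsors of the equations at
`z = 1 - v ^ M` for the logarithm `L = M log v` of `1 - z` -/
def Torsor {r : ℕ} (e : Fin r → Eqn) (v : ℂ) : Set (∀ j, Matrix (Fin (e j).n) (Fin (e j).n) ℂ) :=
  {X | ∀ j, X j ∈ (e j).T (ram e * Complex.log v) (1 - v ^ ram e)}

/-- The polynomials of degree at most `w` in each variable, with coefficients of the form `∑_a ξ_a φ(c_a)` with integers
`c_a` of `K` all conjugates of which have absolute value at most `T ^ w`. -/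
def Relations {k : ℕ} {r : Fin k → ℕ} (e : ∀ i, Fin (r i) → Eqn) (w : ℕ) (K : Type) [Field K] [NumberField K]
    (φ : K →+* ℂ) (ξ : Fin w → ℂ) (T : ℝ) : Set (MvPolynomial (Var e) ℂ) :=
  {P | (∀ v, P.degreeOf v ≤ w) ∧ ∀ s, ∃ c : Fin w → 𝓞 K, (∀ a (ψ : K →+* ℂ), ‖ψ (c a : K)‖ ≤ T ^ w) ∧
    P.coeff s = ∑ a, ξ a * φ (c a : K)}

/-- The points `s` of `K^k` of height at most `T` (quotients of integers all conjugates of which have absolute value at most
`T`) with all `v_i = φ(s_i)` in `Inner M_i w`, such that some polynomial in `Relations` vanishes at the numbers `log z_i` and the entries of the matrices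
`Y_ij(z_i) Ω_ij`, `z_i = 1 - v_i ^ M_i`, but not on the set of the points with arbitrary coordinates `l_i` and the matrices
`X_ij Ω_ij` with `(X_ij)_j` in the torsor of the list `e_i` at `v_i`. -/
def Exceptional {k : ℕ} {r : Fin k → ℕ} (e : ∀ i, Fin (r i) → Eqn) (Ω : ∀ i j, Matrix (Fin (e i j).n) (Fin (e i j).n) ℂ)
    (w : ℕ) (K : Type) [Field K] [NumberField K] (φ : K →+* ℂ) (ξ : Fin w → ℂ) (T : ℝ) : Set (Fin k → K) :=
  {s | (∀ i, Y120.HtLe K T (s i)) ∧ (∀ i, φ (s i) ∈ Inner (ram (e i)) w) ∧ ∃ P ∈ Relations e w K φ ξ T,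
    MvPolynomial.eval (point (fun i => Complex.log (1 - φ (s i) ^ ram (e i)))
      fun i j => (e i j).Y (1 - φ (s i) ^ ram (e i)) * Ω i j) P = 0 ∧
    ∃ (l : Fin k → ℂ) (X : ∀ i j, Matrix (Fin (e i j).n) (Fin (e i j).n) ℂ), (∀ i, X i ∈ Torsor (e i) (φ (s i))) ∧
      MvPolynomial.eval (point l fun i j => X i j * Ω i j) P ≠ 0}

theorem frob_eq (e : Eqn) (k : ℕ) : e.frob k = Pool.Agent.Y119.HY.aq e.n e.poly k := rfl

theorem J_eq (e : Eqn) : e.J = Pool.Agent.Y119.HY.cm (Pool.Agent.Y119.HY.Jm e.n e.poly) := by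
  ext i j
  rw [Pool.Agent.Y119.HY.cm_apply]
  unfold Eqn.J Pool.Agent.Y119.HY.Jm
  rw [Matrix.of_apply, Matrix.of_apply]
  split_ifs
  · rfl
  · simp

theorem Y_eq (e : Eqn) (z : ℂ) : e.Y z = Pool.Agent.Y119.HY.Yf (Pool.Agent.Y119.HY.cm (Pool.Agent.Y119.HY.Am e.n))
    (Pool.Agent.Y119.HY.Hc e.n e.poly) z := by
  ext i j
  unfold Eqn.Y Pool.Agent.Y119.HY.Yf
  rw [Matrix.of_apply, Matrix.mul_apply]
  have hE : ∀ c : Fin e.n, Pool.Agent.Y119.HY.E (Pool.Agent.Y119.HY.cm (Pool.Agent.Y119.HY.Am e.n))
      (Complex.log z) c j = ∑ l ∈ Finset.range e.n,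
        if (j : ℕ) = c + l then (Complex.log z ^ l / (l.factorial : ℂ)) else 0 := by
    intro c
    unfold Pool.Agent.Y119.HY.E
    rw [Matrix.sum_apply]
    refine Finset.sum_congr rfl fun l _ => ?_
    rw [Matrix.smul_apply, ← Pool.Agent.Y119.HY.cm_pow, Pool.Agent.Y119.HY.cm_apply, Pool.Agent.Y119.HY.Am_pow, smul_eq_mul]
    split_ifs
    · push_cast
      ring
    · simp
  simp only [hE, Finset.mul_sum]
  rw [Finset.sum_comm]
  have hsub : Finset.range ((j : ℕ) + 1) ⊆ Finset.range e.n := by
    intro l hl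
    rw [Finset.mem_range] at hl ⊢
    have := j.2
    omega
  refine Finset.sum_subset_zero_on_sdiff hsub (fun l hl => ?_) fun l hl => ?_
  · rw [Finset.mem_sdiff, Finset.mem_range, Finset.mem_range] at hl
    refine Finset.sum_eq_zero fun c _ => ?_
    rw [if_neg (by omega), mul_zero]
  · rw [Finset.mem_range] at hl
    have hj := j.2
    rw [Finset.sum_eq_single (⟨(j : ℕ) - l, by omega⟩ : Fin e.n)]
    · rw [if_pos (by simp only; omega), mul_comm]
      congr 1
    · intro c _ hc
      rw [if_neg, mul_zero]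
      intro h
      apply hc
      apply Fin.ext
      simp only
      omega
    · intro h
      exact absurd (Finset.mem_univ _) h

theorem B_eq (e : Eqn) (z : ℂ) : e.B z = Run7.h893.HO.Bz (Pool.Agent.Y119.HY.cm (Run7.h893.HO.J0m e.n))
    (Pool.Agent.Y119.HY.cm (Run7.h893.HO.J1m e.n e.poly)) z := by
  ext i j
  unfold Eqn.B Run7.h893.HO.Bz
  rw [Matrix.of_apply, Matrix.sub_apply, Matrix.smul_apply, Pool.Agent.Y119.HY.cm_apply, Pool.Agent.Y119.HY.cm_apply,
    smul_eq_mul]
  congr 1
  unfold Run7.h893.HO.J0m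
  rw [Matrix.of_apply]
  split_ifs
  · push_cast
    rfl
  · rw [Rat.cast_zero]

theorem point_eq {k : ℕ} {r : Fin k → ℕ} {e : ∀ i, Fin (r i) → Eqn} (l : Fin k → ℂ)
    (X : ∀ i j, Matrix (Fin (e i j).n) (Fin (e i j).n) ℂ) :
    point l X = Run7.h309.JP.pa (n := fun i j => (e i j).n) l X := by
  funext v
  obtain ⟨i, _ | ⟨j, p⟩⟩ := v
  · rfl
  · rfl

theorem types {r : ℕ} {e : Fin r → Eqn} (he : Good e) :
    ∃ W, Pool.Agent.Run7.h225.HG.JU (fun j => (e j).n) (fun j => (e j).poly) W :=
  Pool.Agent.Run7.h225.HG.JU_QA (n := fun j => (e j).n) (α := fun j => (e j).α) (fun j => (he.1 j).1)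
    (fun j => (he.1 j).2.1) (fun j => (he.1 j).2.2.1) (fun j => (he.1 j).2.2.2) (fun i j hij => he.2.1 i j hij) he.2.2

theorem coeff_sum {e : Eqn} (he : e.Admissible) : e.poly.coeff (e.n - 1) = e.sum :=
  Pool.Agent.Run7.h225.HG.QA_coeff (by have := he.1; omega) e.α

theorem T_eq {e : Eqn} (he : e.Admissible) (L z : ℂ) : e.T L z = Pool.Agent.Run7.h225.HG.TU e.n e.poly L z := by
  have hQ := Pool.Agent.Run7.h225.HG.QG_QA he.1 (Pool.Agent.Run7.h225.HG.nonint he.2.1)
  have hB : e.B 0 = Pool.Agent.Y119.HY.cm (Run7.h893.HO.J0m e.n) := by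
    rw [B_eq]
    unfold Run7.h893.HO.Bz
    rw [zero_smul, sub_zero]
  ext X
  unfold Eqn.T Pool.Agent.Run7.h225.HG.TU
  rw [coeff_sum he, J_eq, hB, B_eq]
  refine and_congr_right fun _ => and_congr ⟨fun h h2 => h ?_, fun h h2 => h ?_⟩ ⟨fun h h2 => h h2.sym, fun h h2 => h ?_⟩
  · exact Pool.Agent.Run7.h225.HG.even_of_QD h2
  · exact Pool.Agent.Run7.h225.HG.QD_of_even hQ h2
  · exact Pool.Agent.Run7.h225.HG.QO_of_comp he.1 (Pool.Agent.Run7.h225.HG.nonint he.2.1) h2

theorem am {r : ℕ} {e : Fin r → Eqn} (he : Good e) :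
    Run7.h309.JP.AM (fun j => (e j).n) (fun j => (e j).poly) (ram e) := by
  have h1 : ∀ j, (e j).poly.coeff ((e j).n - 1) = (e j).sum := fun j => coeff_sum (he.1 j)
  refine ⟨Run7.h309.JP.lcd_pos fun j => (e j).sum, fun j => ?_, ?_⟩
  · rw [h1]
    exact Run7.h309.JP.lcd_int (fun j => (e j).sum) j
  · simp only [h1]
    exact Run7.h309.JP.lcd_comb fun j => (e j).sum

theorem domain_eq {M : ℕ} (hM : 0 < M) {v : ℂ} : v ∈ Domain M ↔ v ∈ Run7.h309.JP.VM M := by
  refine ⟨fun h => ?_, fun h => ⟨h.1, h.2.2⟩⟩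
  have hM' : (1 : ℝ) ≤ M := by exact_mod_cast hM
  refine ⟨h.1, ?_, h.2⟩
  rw [Complex.mem_slitPlane_iff_arg]
  refine ⟨fun h1 => ?_, fun h1 => ?_⟩
  · have h2 := h.2
    rw [h1, abs_of_pos Real.pi_pos] at h2
    exact absurd h2 (not_lt.2 (div_le_self Real.pi_pos.le hM'))
  · have h2 := h.1.1
    rw [h1, zero_pow hM.ne', sub_zero, norm_one] at h2
    exact lt_irrefl _ h2

/-- Let `e_i`, `1 ≤ i ≤ k`, `k ≥ 1`, be good lists of hypergeometric equations `e_ij`, and `M_i` the common denominators of
the sums `s_ij` of their exponents at infinity. For `v` in the domain of the list `e_i` the tuple `(Y_ij(1 - v ^ M_i))_j`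
lies in the torsor of the list at `v`, and:

* every polynomial relation with complex coefficients between the functions `v_i`, `log z_i` and the entries of all the
  `Y_ij(z_i)`, `z_i = 1 - v_i ^ M_i`, holds at all points `v` of the domain identically on the product of `ℂ^k` and of the
  torsors;
* let `Ω_ij` be complex matrices. There is `ω → ∞` such that for all large `T`, all number fields `K` of degree at most
  `ω(T)`, all embeddings `φ` of `K` in `ℂ` and all complex numbers `ξ_a`, `a < ω(T)`: for all points `s` of `K^k` of height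
  at most `T` such that the `z_i`, `v_i = φ(s_i)`, have absolute value at most `1 - 1 / ω(T)` and distance at least
  `1 / ω(T)` from the negative axis, except for those on at most `T^(1/ω(T))` hypersurfaces of degree at most `T^(1/ω(T))`,
  every relation of degree at most `ω(T)` in each variable, with coefficients `∑_a ξ_a c_a`, `c_a` integers of `K` of size at
  most `T^ω(T)`, between the numbers `log z_i` and the entries of the matrices `Y_ij(z_i) Ω_ij` holds identically on the set
  of the `(l, X_ij Ω_ij)`, `l` in `ℂ^k`, `(X_ij)_j` in the torsor at `v_i`. There are at most `T^(1/ω(T)) N^(k-1)`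
  exceptional points, `N` being the number of elements of `K` of height at most `T`. -/
theorem result (k : ℕ) (hk : 1 ≤ k) (r : Fin k → ℕ) (e : ∀ i, Fin (r i) → Eqn) (he : ∀ i, Good (e i)) :
    (∀ i, ∀ v ∈ Domain (ram (e i)), (fun j => (e i j).Y (1 - v ^ ram (e i))) ∈ Torsor (e i) v) ∧
    (∀ P : MvPolynomial (Var e ⊕ Fin k) ℂ,
      (∀ v : Fin k → ℂ, (∀ i, v i ∈ Domain (ram (e i))) →
        MvPolynomial.eval (Sum.elim (point (fun i => Complex.log (1 - v i ^ ram (e i)))
          fun i j => (e i j).Y (1 - v i ^ ram (e i))) v) P = 0) →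
      ∀ v l : Fin k → ℂ, (∀ i, v i ∈ Domain (ram (e i))) →
        ∀ X : ∀ i j, Matrix (Fin (e i j).n) (Fin (e i j).n) ℂ, (∀ i, X i ∈ Torsor (e i) (v i)) →
        MvPolynomial.eval (Sum.elim (point l X) v) P = 0) ∧
    ∀ Ω : ∀ i j, Matrix (Fin (e i j).n) (Fin (e i j).n) ℂ,
      ∃ (ω : ℝ → ℕ) (T₀ : ℝ), Tendsto ω atTop atTop ∧ Monotone ω ∧ ∀ T, T₀ ≤ T → 0 < ω T ∧
        ∀ (K : Type) [Field K] [NumberField K], Module.finrank ℚ K ≤ ω T → ∀ (φ : K →+* ℂ) (ξ : Fin (ω T) → ℂ),
          Y124.Cov ⌊T ^ ((ω T : ℝ)⁻¹)⌋₊ ⌊T ^ ((ω T : ℝ)⁻¹)⌋₊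
            ((fun (s : Fin k → K) j => φ (s j)) '' Exceptional e Ω (ω T) K φ ξ T) ∧
          (Exceptional e Ω (ω T) K φ ξ T).Finite ∧
          ((Exceptional e Ω (ω T) K φ ξ T).ncard : ℝ) ≤
            T ^ ((ω T : ℝ)⁻¹) * ({x : K | Y120.HtLe K T x}.ncard : ℝ) ^ (k - 1) := by
  classical
  choose W hW using fun i => types (he i)
  have hM := fun i => am (he i)
  have hMp : ∀ i, 0 < ram (e i) := fun i => (hM i).pos
  refine ⟨fun i v hv j => ?_, fun P hP v l hv X hX => ?_, fun Ω => ?_⟩
  · rw [domain_eq (hMp i)] at hv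
    show (e i j).Y (1 - v ^ ram (e i)) ∈ (e i j).T (ram (e i) * Complex.log v) (1 - v ^ ram (e i))
    rw [T_eq ((he i).1 j), Y_eq]
    have h2 : (ram (e i) : ℂ) * Complex.log v = Complex.log (1 - (1 - v ^ ram (e i))) := by
      rw [sub_sub_cancel, Run7.h309.JP.log_pow_M (hMp i) (Complex.slitPlane_ne_zero hv.2.1) hv.2.2]
    rw [h2]
    exact Run7.h309.JP.TU_mul (Run7.h309.JP.Hf_memU ((hW i).q j) hv.1.1) (Run7.h309.JP.E_GU ((hW i).q j) _)
  · have h1 := Run7.h309.JP.all_functions_U (n := fun i j => (e i j).n) (Q := fun i j => (e i j).poly) (W := W)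
      (M := fun i => ram (e i)) (fun i j => 1) hW hM P (fun v hv => by
        have h2 := hP v fun i => (domain_eq (hMp i)).2 (hv i)
        rw [point_eq] at h2
        simp only [mul_one, ← Y_eq]
        exact h2) v l (fun i => (domain_eq (hMp i)).1 (hv i)) X fun i j => by
          rw [← T_eq ((he i).1 j)]
          exact hX i j
    rw [point_eq]
    simp only [mul_one] at h1
    exact h1
  · obtain ⟨ω, T₀, h1, h2, h3⟩ := Run7.h309.JP.all_points_U (n := fun i j => (e i j).n)
      (Q := fun i j => (e i j).poly) (W := W) (M := fun i => ram (e i)) Ω hk hW hM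
    refine ⟨ω, T₀, h1, h2, fun T hT => ⟨(h3 T hT).1, ?_⟩⟩
    intro K _ _ hK φ ξ
    have h4 := (h3 T hT).2 K hK φ ξ
    have h5 : Exceptional e Ω (ω T) K φ ξ T =
        Run7.h309.JP.ExcU (n := fun i j => (e i j).n) Ω (fun i j => (e i j).poly) (fun i => ram (e i)) (ω T) K φ ξ T := by
      ext s
      unfold Exceptional Run7.h309.JP.ExcU
      simp only [Set.mem_ofPred_eq, point_eq, Y_eq]
      refine and_congr_right fun _ => and_congr_right fun _ => exists_congr fun P => and_congr Iff.rfl
        (and_congr Iff.rfl (exists_congr fun l => exists_congr fun X => and_congr_left fun _ => ?_))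
      refine forall_congr' fun i => ?_
      unfold Torsor
      refine forall_congr' fun j => ?_
      rw [T_eq ((he i).1 j)]
    rw [h5]
    exact h4

end Pool.Agent.Results.MP_caab05_ag.HypergeometricAllTypes
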