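import Pool.Agent.Run7.h643.MW.BlkY
import Pool.Agent.Run7.h643.MW.BlkH

/-!
# The period conjecture in growing degree for mixed products, chosen in successive windows

We consider families of motives over `ℚ` of two types, with members given by the positive integers `t`:

* the hyperelliptic curves `y² = f(x) (x - 1 / t)` of genus `g`, where `f ∈ ℚ[X]` is monic of degree `n = 2g` with `n` distinct
  real roots, all different from `0`;
* the motives of the hypergeometric equation `(θ^(2m) - z ∏_j (θ² - β_j²)) f = 0` with maximally unipotent monodromy at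
  `z = 0` (`β_j ∈ ℚ` not integers; the mirror quintic family is contiguous to `m = 2`, `β = (1/5, 2/5)`) at `z = 1 / t`,
  together with the Kummer motive with the period `log t`; the constant matrix `Ω` (the periods of the limit) is arbitrary.

Let `φ_1, …, φ_s` be such families, of arbitrary types, genera and ranks, with repetitions allowed. The members are chosen
in `s` windows, one window after the other: in the window number `j` one chooses `k` members `φ_j(t_j - G u)`,
`1 ≤ u ≤ H_j`. The place `t_j` and the size `H_j` of the window are arbitrary functions of the choices in the windows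
before; only `t_j ≥ (H_j + 2)^((δ + 2)^C)` is required, so the windows may be in any position to each other.

At each step at most `q + trdeg + k ∑_{i < j} dim φ_i (+ 1 if φ_j is hypergeometric)` numbers `u` are forbidden, where
`trdeg` is the transcendence degree of the constants of the `s` families (`2πi` and the periods of the central fibres
`y² = f(x) x`, and the entries of `Ω`), `q` is the number of further arbitrary complex constants `w`, and `dim φ_i` is the
dimension of the torsor with multiplier `2πi`. For all other choices all the relations of degree `≤ δ` over number fields of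
degree `≤ δ` (no bound on the height) between all these constants and the periods of the `s k` chosen motives hold
identically on the product of the torsors: there are no algebraic relations of degree `≤ δ` besides those predicted by
the period conjecture for the direct sum of the motives.
-/

set_option autoImplicit false

open Polynomial

namespace Pool.Agent.Results.MP_caab05_ag.MixedWindows

/-! ### families -/

/-- A family of motives `M(t)`, `t = 1, 2, …`, described by its periods. `Entry`: the set of indices of the period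
coordinates; `periods t`: the period point of `M(t)`; `torsor t`: the points of the torsor of `M(t)` over the given values of
the constants; `const`: the constants of the family, with indices in `Const`; `valid t`: the condition on `t`; `dim`: the
dimension of the torsor; `logs`: the number of logarithms. -/
structure Family where
  Entry : Type
  Const : Type
  const : Const → ℂ
  periods : ℕ → Entry → ℂ
  torsor : ℕ → Set (Entry → ℂ)
  valid : ℕ → Prop
  dim : ℕ
  logs : ℕ

/-- the branch points: `t` inserted at place `m` in the sequence of the `a i` -/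
noncomputable def branch {n : ℕ} (a : Fin n → ℝ) (m : Fin (n + 1)) (t : ℝ) : Fin (n + 1) → ℝ :=
  Fin.insertNth (α := fun _ => ℝ) m t a

/-- the period `∮ x^j dx / y`, `y² = ∏ (x - e i)`, over the loop around the segment `[e l, e (l + 1)]`, that is twice
the integral over the segment (principal branch of the square root) -/
noncomputable def period {n : ℕ} (e : Fin (n + 1) → ℝ) (l j : Fin n) : ℂ :=
  2 * ∫ x in (e l.castSucc)..(e l.succ), (x : ℂ) ^ (j : ℕ) / (((∏ i, (x - e i) : ℝ) : ℂ) ^ (1 / 2 : ℂ))

/-- the polarisation in terms of the forms `x^j dx / y`, `y² = F(x) = ∑ c_k x^k`: entries `(i - j)/2 * c_(i+j+2)` -/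
noncomputable def polDR (n : ℕ) (F : ℚ[X]) : Matrix (Fin n) (Fin n) ℚ :=
  Matrix.of fun i j => (((i : ℕ) : ℚ) - ((j : ℕ) : ℚ)) / 2 * F.coeff ((i : ℕ) + (j : ℕ) + 2)

/-- the polarisation in terms of the loops: `2 (-1)^r` at `(r, s)`, `|r - s| = 1` -/
def polB (n : ℕ) : Matrix (Fin n) (Fin n) ℚ :=
  Matrix.of fun r s => if (r : ℕ) = s + 1 ∨ (s : ℕ) = r + 1 then 2 * (-1) ^ (r : ℕ) else 0

/-- The curves `y² = f(x) (x - 1 / t)`, `f` of degree `n` with the roots `a`, `m` the place of `0` among the roots.
Coordinates: the period matrix of the forms `x^j dx / y`, `j < n`. Torsor: the matrices `X` with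
`X polDR X^T = 2πi polB`. Constants: `2πi` and the periods of `y² = f(x) x`. Valid: `1 / t` is in the gap of `0`, and the
period matrix is on the torsor. -/
noncomputable def curves (n : ℕ) (a : Fin n → ℝ) (m : Fin (n + 1)) (f : ℚ[X]) : Family where
  Entry := Fin n × Fin n
  Const := Option (Fin n × Fin n)
  const := fun o => o.elim (2 * Real.pi * Complex.I) fun x => period (branch a m 0) x.1 x.2
  periods := fun t x => period (branch a m (1 / (t : ℝ))) x.1 x.2
  torsor := fun t => {Z | (Matrix.of fun i j => Z (i, j)) * (polDR n (f * (X - C (1 / (t : ℚ))))).map (algebraMap ℚ ℂ) *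
    (Matrix.of fun i j => Z (i, j)).transpose = (2 * Real.pi * Complex.I : ℂ) • (polB n).map (algebraMap ℚ ℂ)}
  valid := fun t => StrictMono (branch a m (1 / (t : ℝ))) ∧
    (Matrix.of (period (branch a m (1 / (t : ℝ))))) * (polDR n (f * (X - C (1 / (t : ℚ))))).map (algebraMap ℚ ℂ) *
    (Matrix.of (period (branch a m (1 / (t : ℝ))))).transpose =
      (2 * Real.pi * Complex.I : ℂ) • (polB n).map (algebraMap ℚ ℂ)
  dim := n * (n + 1) / 2
  logs := 0

/-- the power series `k + ε` in the variable `ε` -/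
noncomputable def shift (k : ℕ) : PowerSeries ℚ := PowerSeries.C (k : ℚ) + PowerSeries.X

/-- `a_k(ε) = ∏_{l < k} ∏_j ((l + ε)^2 - β_j^2) / (l + 1 + ε)^(2m)`. The series `∑_k a_k(ε) z^(k + ε)` solves the
equation `(θ^n - z ∏_j (θ^2 - β_j^2)) f = ε^n z^ε`, hence its coefficients `f_j` at `ε^j` with `j < n = 2m` are
solutions of the homogeneous equation. -/
noncomputable def frob {m : ℕ} (β : Fin m → ℚ) (k : ℕ) : PowerSeries ℚ :=
  ∏ l ∈ Finset.range k, ((∏ j, (shift l ^ 2 - PowerSeries.C (β j ^ 2))) * ((shift (l + 1))⁻¹) ^ (2 * m))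

/-- The matrix with the entries `(θ^i f_j)(z)` at `z = 1 / t`, where `f_j(z)` is the coefficient of `ε^j` in the series
`∑_k a_k(ε) z^(k + ε)`, `z^ε = ∑_a (log z)^a ε^a / a!`. -/
noncomputable def Y {m : ℕ} (β : Fin m → ℚ) (t : ℕ) : Matrix (Fin (2 * m)) (Fin (2 * m)) ℂ :=
  Matrix.of fun i j => ∑ a ∈ Finset.range ((j : ℕ) + 1), ((Real.log (1 / t) ^ a / a.factorial : ℝ) : ℂ) *
    ∑' k : ℕ, ((PowerSeries.coeff ((j : ℕ) - a) (shift k ^ (i : ℕ) * frob β k) : ℚ) : ℂ) * (1 / (t : ℂ)) ^ k

/-- the polynomial `∏_j (x^2 - β_j^2)` -/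
noncomputable def poly {m : ℕ} (β : Fin m → ℚ) : ℚ[X] := ∏ j, (X ^ 2 - C (β j ^ 2))

/-- The matrix of the intersection form: the entry `(i, j)` is `(-1)^i q_{i+j+1-n}` for `i + j + 1 ≥ n` and `0`
otherwise, where `q_l` are the coefficients of `∏_j (x^2 - β_j^2)`, `n = 2m`. -/
noncomputable def J {m : ℕ} (β : Fin m → ℚ) : Matrix (Fin (2 * m)) (Fin (2 * m)) ℂ :=
  Matrix.of fun i j => if 2 * m ≤ (i : ℕ) + j + 1 then (((-1) ^ (i : ℕ) * (poly β).coeff (i + j + 1 - 2 * m) : ℚ) : ℂ) else 0

/-- The hypergeometric motives at `z = 1 / t` with the parameters `β` and the constant matrix `Ω`, together with the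
logarithm of `t`. Coordinates: `log t` and the entries of `Y(t) Ω`. Torsor: any number in the place of `log t`, and the
matrices `g Ω` with `g` in the symplectic group of `J`. Constants: the entries of `Ω`. Valid: the period point is on the
torsor. -/
noncomputable def hypergeometric (m : ℕ) (β : Fin m → ℚ) (Ω : Matrix (Fin (2 * m)) (Fin (2 * m)) ℂ) : Family where
  Entry := Option (Fin (2 * m) × Fin (2 * m))
  Const := Fin (2 * m) × Fin (2 * m)
  const := fun x => Ω x.1 x.2
  periods := fun t o => o.elim ((Real.log t : ℝ) : ℂ) fun x => (Y β t * Ω) x.1 x.2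
  torsor := fun _ => {Z | ∃ g : Matrix (Fin (2 * m)) (Fin (2 * m)) ℂ, g.transpose * J β * g = J β ∧
    ∀ x : Fin (2 * m) × Fin (2 * m), Z (some x) = (g * Ω) x.1 x.2}
  valid := fun t => (Y β t).transpose * J β * Y β t = J β
  dim := m * (2 * m + 1) + 1
  logs := 1

/-- the families which are considered -/
inductive Admissible : Family → Prop
  | curves (n : ℕ) (a : Fin n → ℝ) (m : Fin (n + 1)) (f : ℚ[X]) (hn : Even n)
      (hf : f.map (algebraMap ℚ ℝ) = ∏ i, (X - C (a i))) (h0 : StrictMono (branch a m 0)) :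
      Admissible (curves n a m f)
  | hypergeometric (m : ℕ) (β : Fin m → ℚ) (Ω : Matrix (Fin (2 * m)) (Fin (2 * m)) ℂ) (hm : 1 ≤ m)
      (hβ : ∀ j, ∀ a : ℤ, β j ≠ a) : Admissible (hypergeometric m β Ω)

/-- all the constants of the families -/
def consts {s : ℕ} (φ : Fin s → Family) : (Σ j, (φ j).Const) → ℂ := fun x => (φ x.1).const x.2

/-- the field generated by the constants -/
noncomputable def constField {s : ℕ} (φ : Fin s → Family) : IntermediateField ℚ ℂ :=
  IntermediateField.adjoin ℚ (Set.range (consts φ))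

/-- The statement of degree `δ` for the members `φ_j(t_ji)`, `j < s`, `i < k`: for all number fields `F` of degree `≤ δ`, every
polynomial of degree `≤ δ` over `F` in the numbers `w`, the constants of the families and the periods of the members which
vanishes at the period point vanishes at all the points of the product of the torsors. -/
def Generic {s k q : ℕ} (δ : ℕ) (w : Fin q → ℂ) (φ : Fin s → Family) (t : Fin s → Fin k → ℕ) : Prop :=
  ∀ F : IntermediateField ℚ ℂ, FiniteDimensional ℚ F → Module.finrank ℚ F ≤ δ →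
    ∀ P : MvPolynomial ((Fin q ⊕ (Σ j, (φ j).Const)) ⊕ (Σ l : Fin s × Fin k, (φ l.1).Entry)) F, P.totalDegree ≤ δ →
    MvPolynomial.aeval (Sum.elim (Sum.elim w (consts φ)) fun p : (Σ l : Fin s × Fin k, (φ l.1).Entry) =>
      (φ p.1.1).periods (t p.1.1 p.1.2) p.2) P = 0 →
    ∀ Z : ∀ l : Fin s × Fin k, (φ l.1).Entry → ℂ, (∀ l, Z l ∈ (φ l.1).torsor (t l.1 l.2)) →
      MvPolynomial.aeval (Sum.elim (Sum.elim w (consts φ)) fun p : (Σ l : Fin s × Fin k, (φ l.1).Entry) =>
        Z p.1 p.2) P = 0

/-! ### conversions -/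

open Pool.Agent.Run7.h643.MX

theorem frob_eq {m : ℕ} (β : Fin m → ℚ) (k : ℕ) : frob β k = Pool.Agent.Y119.HY.aq (2 * m) (Pool.Agent.Y119.HY.QB β) k := by
  unfold frob Pool.Agent.Y119.HY.aq
  refine Finset.prod_congr rfl fun l _ => ?_
  congr 1
  unfold Pool.Agent.Y119.HY.QB
  rw [map_prod]
  refine Finset.prod_congr rfl fun j _ => ?_
  simp only [map_sub, map_pow, Polynomial.aeval_X, Polynomial.aeval_C]
  rfl

theorem J_eq {m : ℕ} (β : Fin m → ℚ) :
    J β = Pool.Agent.Y119.HY.cm (Pool.Agent.Y119.HY.Jm (2 * m) (Pool.Agent.Y119.HY.QB β)) := by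
  ext i j
  rw [Pool.Agent.Y119.HY.cm_apply]
  unfold J Pool.Agent.Y119.HY.Jm
  rw [Matrix.of_apply, Matrix.of_apply]
  split_ifs
  · rfl
  · simp

theorem Y_eq {m : ℕ} (β : Fin m → ℚ) (t : ℕ) :
    Y β t = Pool.Agent.Y119.HZ.Yt (2 * m) (Pool.Agent.Y119.HY.QB β) t := by
  ext i j
  unfold Y Pool.Agent.Y119.HZ.Yt
  rw [Matrix.of_apply, Matrix.mul_apply]
  have hE : ∀ c : Fin (2 * m), Pool.Agent.Y119.HY.E (Pool.Agent.Y119.HY.cm (Pool.Agent.Y119.HY.Am (2 * m)))
      (-((Real.log t : ℝ) : ℂ)) c j = ∑ l ∈ Finset.range (2 * m),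
        if (j : ℕ) = c + l then ((Real.log (1 / t) ^ l / l.factorial : ℝ) : ℂ) else 0 := by
    intro c
    unfold Pool.Agent.Y119.HY.E
    rw [Matrix.sum_apply]
    refine Finset.sum_congr rfl fun l _ => ?_
    rw [Matrix.smul_apply, ← Pool.Agent.Y119.HY.cm_pow, Pool.Agent.Y119.HY.cm_apply, Pool.Agent.Y119.HY.Am_pow, smul_eq_mul,
      one_div, Real.log_inv]
    split_ifs
    · push_cast
      ring
    · simp
  simp only [hE, Finset.mul_sum]
  rw [Finset.sum_comm]
  have hsub : Finset.range ((j : ℕ) + 1) ⊆ Finset.range (2 * m) := by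
    intro l hl
    rw [Finset.mem_range] at hl ⊢
    have := j.2
    omega
  refine Finset.sum_subset_zero_on_sdiff hsub (fun l hl => ?_) fun l hl => ?_
  · rw [Finset.mem_sdiff, Finset.mem_range, Finset.mem_range] at hl
    refine Finset.sum_eq_zero fun c _ => ?_
    rw [if_neg (by omega), mul_zero]
  · rw [Finset.mem_range] at hl
    have hj := j.2
    rw [Finset.sum_eq_single (⟨(j : ℕ) - l, by omega⟩ : Fin (2 * m))]
    · rw [if_pos (by simp only; omega), mul_comm]
      congr 1
      unfold Pool.Agent.Y119.HY.Hf Pool.Agent.Y119.HY.ps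
      rw [Matrix.of_apply]
      refine tsum_congr fun k => ?_
      show _ = ((Pool.Agent.Y119.HY.hq (2 * m) (Pool.Agent.Y119.HY.QB β) k i ((j : ℕ) - l) : ℚ) : ℂ) *
        (((1 / (t : ℝ) : ℝ)) : ℂ) ^ k
      rw [frob_eq]
      unfold Pool.Agent.Y119.HY.hq
      push_cast
      rfl
    · intro c _ hc
      rw [if_neg, mul_zero]
      intro h
      apply hc
      apply Fin.ext
      simp only
      omega
    · intro h
      exact absurd (Finset.mem_univ _) h

/-- the family given by the data of the project MX -/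
noncomputable def fam (ψ : FD) (v : ℕ → Prop) : Family where
  Entry := ψ.ρ
  Const := ψ.χ
  const := ψ.cc
  periods := ψ.per
  torsor := ψ.Tor
  valid := v
  dim := Fintype.card ψ.σ
  logs := Fintype.card ψ.κ

theorem card_sx (n : ℕ) : Fintype.card {p : Fin n × Fin n // p.1 ≤ p.2} = n * (n + 1) / 2 := by
  have := Pool.Agent.Y118.HG.card_Sy n
  have h2 : Fintype.card (Pool.Agent.Y118.HG.Sy n) = Fintype.card {p : Fin n × Fin n // p.1 ≤ p.2} := rfl
  omega

theorem exists_fd {φ : Family} (h : Admissible φ) :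
    ∃ (ψ : FD) (v : ℕ → Prop), ψ.Ok ∧ (∀ t, ψ.ok t → v t) ∧ φ = fam ψ v := by
  rcases h with ⟨n, a, m, f, hn, hf, h0⟩ | ⟨m, β, Ω, hm, hβ⟩
  · have ha : StrictMono a := (Pool.Agent.Y118.HP.inGap_of_er h0).1
    have hg0 : Pool.Agent.Y118.HP.InGap a m 0 := (Pool.Agent.Y118.HP.inGap_of_er h0).2
    have hf0 : f.coeff 0 ≠ 0 := Pool.Agent.Y118.HG.coeff_ne_of_gap hg0 hf
    have Δ := Classical.choice (Pool.Agent.Y118.HG.exists_ZDat hn ha hg0 hf hf0)
    refine ⟨fdY Δ, (curves n a m f).valid, fdY_ok hn Δ hf h0, fun t ht => ht, ?_⟩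
    have h1 : @Fintype.card (fdY Δ).σ (fdY Δ).fσ = n * (n + 1) / 2 := card_sx n
    have h2 : @Fintype.card (fdY Δ).κ (fdY Δ).fκ = 0 := Fintype.card_fin 0
    unfold fam
    rw [h1, h2]
    rfl
  · have hβ' : ∀ j, ∀ l : ℕ, (l : ℚ) + β j ≠ 0 ∧ (l : ℚ) + -β j ≠ 0 := by
      intro j l
      constructor
      · intro h
        apply hβ j (-(l : ℤ))
        push_cast
        linear_combination h
      · intro h
        apply hβ j (l : ℤ)
        push_cast
        linear_combination -h
    have hQ := Pool.Agent.Y119.HZ.QD_QB hm hβ'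
    have hH := fun a b => Pool.Agent.Y119.HY.sdc_hps hβ' hQ a b
    obtain ⟨d, K, hK⟩ := Pool.Agent.R351.GD.H.exists_IK (2 * m) (Pool.Agent.Y119.HY.QB β)
    refine ⟨fdH (2 * m) (Pool.Agent.Y119.HY.QB β) d Ω, (hypergeometric m β Ω).valid, fdH_ok hQ hH hK Ω,
      fun t ht => ?_, ?_⟩
    · show (Y β t).transpose * J β * Y β t = J β
      rw [Y_eq, J_eq]
      exact ht
    · have h1 : @Fintype.card (fdH (2 * m) (Pool.Agent.Y119.HY.QB β) d Ω).σ
          (fdH (2 * m) (Pool.Agent.Y119.HY.QB β) d Ω).fσ = m * (2 * m + 1) + 1 := by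
        have h3 : Fintype.card (Option {p : Fin (2 * m) × Fin (2 * m) // p.1 ≤ p.2}) = m * (2 * m + 1) + 1 := by
          rw [Fintype.card_option, card_sx]
          congr 1
          rw [mul_assoc, Nat.mul_div_cancel_left _ (by norm_num)]
        exact h3
      have h2 : @Fintype.card (fdH (2 * m) (Pool.Agent.Y119.HY.QB β) d Ω).κ
          (fdH (2 * m) (Pool.Agent.Y119.HY.QB β) d Ω).fκ = 1 := Fintype.card_fin 1
      unfold fam
      rw [h1, h2]
      unfold hypergeometric
      simp only [Y_eq, J_eq]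
      rfl

/-- Let `φ_j`, `j < s`, be admissible families of arbitrary types. There is `G_0` such that for all `G ≥ G_0`, `k` and `q`
there is `C` with the following property. Let `δ` be an integer, `w ∈ ℂ^q`, and let the places `t_j` and the sizes `H_j` be
functions of the choices `u_i : Fin k → ℕ`, `i < j`, in the windows before. Then there are sets `S_j`, functions of the same
choices, of at most `q + trdeg + k ∑_{i < j} dim φ_i + logs φ_j` numbers, such that for all choices `u` with
`t_j ≥ (H_j + 2)^((δ + 2)^C)`, `u_j` injective, `1 ≤ u_ji ≤ H_j` and `u_ji ∉ S_j`, the members `φ_j(t_j - G u_ji)` are valid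
and the statement of degree `δ` holds for them. -/
theorem result (s : ℕ) (φ : Fin s → Family) (hφ : ∀ j, Admissible (φ j)) :
    ∃ G₀ : ℕ, ∀ G : ℕ, G₀ ≤ G → ∀ k q : ℕ, ∃ C₀ : ℕ, ∀ (δ : ℕ) (H t : Fin s → (Fin s → Fin k → ℕ) → ℕ),
      (∀ j u u', (∀ i, i < j → u i = u' i) → H j u = H j u' ∧ t j u = t j u') →
      ∀ w : Fin q → ℂ, ∃ S : Fin s → (Fin s → Fin k → ℕ) → Finset ℕ,
        (∀ j u, ((S j u).card : Cardinal) ≤ q + Algebra.trdeg ℚ (constField φ) +
          (k * ∑ i ∈ Finset.Iio j, (φ i).dim + (φ j).logs : ℕ)) ∧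
        (∀ j u u', (∀ i, i < j → u i = u' i) → S j u = S j u') ∧
        ∀ u : Fin s → Fin k → ℕ, (∀ j, (H j u + 2) ^ (δ + 2) ^ C₀ ≤ t j u) → (∀ j, Function.Injective (u j)) →
          (∀ j i, 1 ≤ u j i ∧ u j i ≤ H j u ∧ u j i ∉ S j u) →
          (∀ j i, G * u j i < t j u ∧ (φ j).valid (t j u - G * u j i)) ∧
          Generic δ w φ fun j i => t j u - G * u j i := by
  choose ψ v hψ hv hφψ using fun j => exists_fd (hφ j)
  obtain rfl : φ = fun j => fam (ψ j) (v j) := funext hφψ
  obtain ⟨G₀, h1⟩ := fdwin s ψ hψ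
  refine ⟨G₀, fun G hG k q => ?_⟩
  obtain ⟨C₀, h2⟩ := h1 G hG k q
  refine ⟨C₀, fun δ H t hdep w => ?_⟩
  obtain ⟨S, hS1, hS2, h3⟩ := h2 δ H t hdep w
  refine ⟨S, hS1, hS2, fun u hu hinj huS => ?_⟩
  obtain ⟨h4, h5⟩ := h3 u hu hinj huS
  exact ⟨fun j i => ⟨(h4 j i).1, hv j _ (h4 j i).2⟩, h5⟩

end Pool.Agent.Results.MP_caab05_ag.MixedWindows
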