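import Pool.Agent.Run7.h2.OB.PUMain

set_option autoImplicit false

/-!
# Products of abelian varieties of unitary types: every torsor group contains the Mumford-Tate group

Let `A` be an abelian variety over `ℚ̄` and let `M` be any motive over `ℚ̄` in the tensor category
generated by `h^1(A)` and the Tate motives. Let `P` be the matrix of the periods of `M`, and let
`G ⊆ GL(H_B(M))` be *any* algebraic group over `ℚ` such that the comparison isomorphism of `M` is a point
of a torsor of `G` defined over `ℚ̄`: `P T ∈ G(ℂ)` for some matrix `T` with algebraic entries. The
comparison isomorphism is a point of a torsor of the motivic Galois group `G_mod`, which is the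
Mumford-Tate group `MT(M)` by the theorem of André. The conjecture
`trdeg ℚ̄(P) = dim G_mod` says that `P` is a generic point of this torsor; in particular it predicts
that every such `G` contains `MT(M)`. For example let `X = A_1 × ... × A_k` be a product of abelian
varieties: the prediction says that the periods of the factors satisfy no relations defining a torsor
besides those which come from the Hodge structures.

**Several unitary parts** (`UnitaryParts`). Let `z_1, ..., z_k` be elements of the centre of
`End(A) ⊗ ℚ` which are skew-symmetric for the polarization, such that every element of the centre is a
polynomial in `z_j` on the image of `z_j`. For example let `A` be isogenous to a product of powers of simple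
abelian varieties `A_1, ..., A_k` which are not isogenous, and of an arbitrary abelian variety `A_0`,
`Hom(A_j, A_0) = 0`, let `F_j` be the centre of `End(A_j) ⊗ ℚ`, a CM field, and let `z_j` be a generator
of `F_j` with `z̄_j = - z_j`, extended by zero. Let `B_j` be the algebra of the endomorphisms of
`H_1(A, ℚ)` which commute with `End(A)`, cut down to the image of `z_j`: a central simple algebra over
`F_j`. Let `S_j` be a finite set of real numbers `a ≠ 0`, `S_j` and `- S_j` disjoint, such that both `i a`
and `- i a` are eigenvalues of `z_j` on the tangent space of `A`: places of `F_j` with an indefinite
signature. For every `j` we assume that one of the following is true (`UnitaryPart`).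

* **Ball places.** At all `a ∈ S_j` the signature is `(1, N_j - 1)` (the eigenspace of `i a` is a
  simple module over `End(A)`), and `i a` and `- i a` are separated (see below).
* **One ball place.** This is true for *one* `a ∈ S_j`; the signatures at the other places of `S_j` are
  arbitrary. Here `F_j` has to be a field, in the first case it can be a product of fields.
* **Division algebras.** `B_j` is a division algebra of a prime degree `p_j` over `F_j`; all signatures
  are arbitrary.

The kinds of the parts can be different, for example a part with one ball place and a part with a
division algebra of prime degree.

*The separation in one part* (`Separates`). If `B' ⊆ B_j` is a `ℚ`-algebra with `B_j = B' F_j`, then the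
elements of `F_j` in `B'` separate `± i a` and `± i b` for different `a`, `b` in `S_j`.

*The separation of two parts* (`SeparatesTwo`). If a subalgebra `B'` over `ℚ` of the algebra of the
endomorphisms which commute with `End(A)` generates this algebra together with the centre of `End(A)`,
then `B'` contains an element which acts by an element `q(z_i)` of `F_i` on the image of `z_i` and by an
element `q'(z_j)` of `F_j` on the image of `z_j` such that `q(± i a) ≠ q'(i b)` for `a ∈ S_i`,
`b ∈ S_j`, `i ≠ j`. This is true if `B_i` and `B_j` have different degrees, and it is true if `B_i` is of
order at least three in the Brauer group of `F_i`, and `F_i` and `F_j` have no common subfield (up to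
isomorphism) which is not real. For let `B'` be as above, and let `B''` be its image in `B_i × B_j`. It
is semisimple, and its central idempotents are central in `B_i × B_j`. So either `(1, 0)` is in `B''`, and
then there is nothing to prove, or `B''` is a simple algebra over a field `K` which is a subfield of `F_i`
and of `F_j`, with `B_i = B'' ⊗ F_i` and `B_j = B'' ⊗ F_j`; so the degrees are equal. If `K` is real,
then `B_i` is isomorphic to its complex conjugate, which is isomorphic to the opposite algebra by the
positive involution, so its order is at most two.

**The domain of `M`** (`DomainOf`). We assume that the elements of `[𝔤, 𝔤] ⊗ ℝ` (`𝔤` is the Lie algebra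
of the Hodge group of `A`) which act trivially on the eigenspaces of `z_j` for `± i a`, `a ∈ S_j`,
`j = 1, ..., k`, act on `M` by matrices which commute with the complex structure `N` of `M`. If `S_j` is
the set of all places at which the unitary group is not compact, and if `A_0` is an abelian variety with
complex multiplication, then this is true for all motives `M`. Factors of `A_0` of any other kind are
also allowed, if they do not contribute to the Mumford-Tate domain of `M`.

**Theorem.** 1. `G` contains the derived group of `MT(M)`: for all elements `Z` of the derived algebra
of the Lie algebra of the Hodge group of `M`, and all complex numbers `t`, the matrix `exp (t Z)` is in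
`G`. 2. If the centre of the Lie algebra of the Hodge group of `A` acts trivially on `M`, or if it is
rigid (`RigidCentre`), then `G` contains `MT(M)`.

The group `G` is not assumed to be reductive. The theorems of the starting library and of this run treat
*one* part: `ProductsOfBalls`, `DivisionAlgebrasOfPrimeDegree`, `CentreOfPeriodTorsors` (all signatures
`(1, n)`, or division algebras of prime degree), `OneBallPlace`, `MixedSignatureTorsors` (one ball place).
New are the products: parts for different fields, of different degrees and of different kinds. In
particular, if the theorem applies to `A_1` and to `A_2`, then it applies to `A_1 × A_2` if the two parts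
are separated; nothing of this kind is true for the statement on torsors in general, since the torsors of
`A_1` and `A_2` could be related.

Nothing is assumed about periods: `AbVar` is the description of an abelian variety over `ℚ̄` by theta
functions (see `Pool/Agent/Y102/AVDefs.lean`, where it is explained why every abelian variety has it),
and the transcendence theorems which are used, the theorem of Schneider and Lang and the
transcendence of `π`, are proved in this repository.

## Motives

As `h^1(A)` is dual to `h^1(A)(1)`, the motive `M` is a direct factor of a sum of motives
`h^1(A) ^ {⊗ r i} (w i)`. Its Betti realization is a space of families of multilinear forms with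
rational values, in `r i` variables in `H_1(A, ℚ)`, with a basis `B`. It is the image of a motivated
projector, and the realizations of motivated classes are Hodge classes and de Rham-Betti classes; so
it is stable under the Lie algebra `𝔤` of the endomorphisms of `H_1(A, ℚ)` which annihilate all
classes that are Hodge classes and de Rham-Betti classes (`InLie`), and under the weights. The de Rham
realization has a basis which consists of combinations of products of elements of `H^1_dR(A / ℚ̄)`
with algebraic coefficients. The matrix `P` of the periods expresses it in terms of the basis
`(2 π i) ^ (w i) B` of the Betti realization (`IsMotive`). By the theorem of Deligne `𝔤` is the Lie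
algebra of the Hodge group of `A`, and its image in the endomorphisms of `M` is the Lie algebra of
the Hodge group of `M`.

## Proof

Let `L` be the Lie algebra of `G`, and let `𝔮` be the set of the `X` in `𝔤` whose action on `M` is in
`L` up to a multiple of the weight operator. By the theorem of Schneider and Lang `𝔮` acts semisimply on
`H_1(A, ℚ)`, with the same commutant as `𝔤` (`Pool.Agent.N208.AM.qM_full`).

1. At each place `a` in each `S_j` the image of `[𝔮, 𝔮] ⊗ ℝ` is `su(r, s)`: for balls by the theorem on
   irreducible subalgebras of `u(1, n)`, for one ball place by the transfer of helper2
   (`Run7.h2.OB.big_of_one`), for division algebras of prime degree by the theorem of project BT.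
2. There are no links between different places: if the images at two places, of the same or of
   different parts, were linked, then the matrices of all elements of the algebra generated by `[𝔮, 𝔮]`
   would be linked, and this contradicts the separation (`Run7.h2.OB.nl_two`). So `[𝔮, 𝔮] ⊗ ℝ` and
   `[𝔤, 𝔤] ⊗ ℝ` have the same image on the sum of the eigenspaces (`Run7.h2.OB.rpartI`).
3. The theorem follows by a lemma on real Lie algebras of helper113 (`Pool.Agent.N113.BT.mem_of_sup`),
   and for the centre by the theorem on replicas (`Pool.Agent.N208.CT.main_CT`).
-/

open Pool.Agent.Y102 Run7.h2.OB.PU

namespace Pool.Agent.Results.MP_caab05_ag.ProductsOfUnitaryTypes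

/-- **Theorem.** Let the abelian variety `A` have unitary parts given by central skew-symmetric
endomorphisms `z j` and finite sets `S j` of places, of any of the types (ball places; one ball place;
division algebras of prime degree), which are separated from each other. Let `M` be a motive in the
tensor category generated by `h^1(A)` and the Tate motives, with the matrix `P` of periods and the
complex structure `N`, such that the part of the Hodge group of `A` which acts trivially on the
eigenspaces of the `z j` for `± i a`, `a ∈ S j`, acts trivially on the Mumford-Tate domain of `M`. Let `G`
be an algebraic group over `ℚ` with a torsor over `ℚ̄` which contains `P`.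

1. For all elements `Z` of the derived algebra of the Lie algebra of the Hodge group of `M` and all
   complex numbers `t` the matrix `exp (t Z)` is in `G`.
2. If the centre acts trivially on `M`, or if the centre is rigid, then the Mumford-Tate group of `M` is
   contained in `G`. -/
theorem result {g s n k : ℕ} (A : AbVar g) (z : Fin k → Module.End ℚ A.H1) (S : Fin k → Finset ℝ)
    (hA : UnitaryParts A z S) (r : Fin s → ℕ) (w : Fin s → ℤ)
    (B : Fin n → Tensors A r) (P : Matrix (Fin n) (Fin n) ℂ) (hM : IsMotive w B P)
    (N : Matrix (Fin n) (Fin n) ℝ) (hN : IsComplexStructure B N) (hD : DomainOf z S B N)
    (G : Subgroup (GL (Fin n) ℂ)) (hG : IsAlgebraicSubgroup G) (T : Matrix (Fin n) (Fin n) ℂ)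
    (hT : ∀ i j, IsAlgebraic ℚ (T i j)) (hP : P ∈ torsor G T) :
    (∀ Z ∈ derived (hodgeLie N), ∀ t : ℂ, ∃ x ∈ G,
      (x : Matrix (Fin n) (Fin n) ℂ) = NormedSpace.exp (t • Z.map fun q => (q : ℂ))) ∧
    (CentreActsTrivially B ∨ RigidCentre A → mumfordTate w B ≤ G) :=
  Run7.h2.OB.PU.main A z S hA r w B P hM N hN hD G hG T hT hP

end Pool.Agent.Results.MP_caab05_ag.ProductsOfUnitaryTypes
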